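import Pool.Agent.Q226.FL2.Gen
import Pool.Agent.H520R2.NMDefs

/-! # Substituting constants and variables into circuits of AND, OR and arbitrary gates -/

set_option autoImplicit false

open Finset

namespace Pool.Agent.Q226.FL2

open Pool.Agent.H520R2.NM Pool.Agent.Q226.FLT

section csub

variable {ι ι' : Type}

/-- substitution in a wire -/
def wsub (σ : ι → ι' ⊕ Bool) {n : ℕ} : Wire ι n → Wire ι' n
  | .input i => Sum.elim Wire.input Wire.const (σ i)
  | .const b => .const b
  | .gate j => .gate j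

/-- the value of the substituted variables -/
def sval (σ : ι → ι' ⊕ Bool) (x : ι' → Bool) : ι → Bool := fun i => Sum.elim x id (σ i)

theorem wsub_eval (σ : ι → ι' ⊕ Bool) {n : ℕ} (a : Wire ι n) (x : ι' → Bool) (v : Fin n → Bool) :
    (wsub σ a).eval x v = a.eval (sval σ x) v := by
  cases a with
  | input i =>
    show (Sum.elim Wire.input Wire.const (σ i) : Wire ι' n).eval x v = Sum.elim x id (σ i)
    rcases σ i with i' | b <;> rfl
  | const b => rfl
  | gate j => rfl

/-- substitution in a circuit -/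
def csub (σ : ι → ι' ⊕ Bool) : {n : ℕ} → Circuit ι n → Circuit ι' n
  | _, .empty => .empty
  | _, .and C a b => .and (csub σ C) (wsub σ a) (wsub σ b)
  | _, .or C a b => .or (csub σ C) (wsub σ a) (wsub σ b)
  | _, .any C w u G a => .any (csub σ C) w u G (fun j => wsub σ (a j))

theorem csub_vals (σ : ι → ι' ⊕ Bool) {n : ℕ} (C : Circuit ι n) (x : ι' → Bool) :
    (csub σ C).vals x = C.vals (sval σ x) := by
  induction C with
  | empty => rfl
  | and C a b ih => simp only [csub, Circuit.vals, wsub_eval, ih]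
  | or C a b ih => simp only [csub, Circuit.vals, wsub_eval, ih]
  | any C w u G a ih => simp only [csub, Circuit.vals, wsub_eval, ih]

theorem csub_size (σ : ι → ι' ⊕ Bool) {n : ℕ} (C : Circuit ι n) :
    (csub σ C).size = C.size := by
  induction C with
  | empty => rfl
  | and C a b ih => simp only [csub, Circuit.size, ih]
  | or C a b ih => simp only [csub, Circuit.size, ih]
  | any C w u G a ih => simp only [csub, Circuit.size, ih]

theorem csub_fanins (σ : ι → ι' ⊕ Bool) {n : ℕ} (C : Circuit ι n) :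
    (csub σ C).fanins = C.fanins := by
  induction C with
  | empty => rfl
  | and C a b ih => simp only [csub, Circuit.fanins, ih]
  | or C a b ih => simp only [csub, Circuit.fanins, ih]
  | any C w u G a ih => simp only [csub, Circuit.fanins, ih]

end csub

variable {X : Type} {K D : ℕ}

/-- the random choices: a member, tags, fault numbers -/
abbrev Choices (Ω X : Type) (K D : ℕ) : Type := Ω × (X → Fin K) × (X → Fin K → Fin D)

/-- the substitution given by `rl` -/
def rsub [NeZero D] (t : X → Fin K) (w : X → Fin K → Fin D) : (X × Fin K) × Bool → X ⊕ Bool :=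
  fun p => if p.2 = true then (if p.1.2 = t p.1.1 then Sum.inl p.1.1 else Sum.inr false) else
    Sum.inr (!decide (w p.1.1 p.1.2 = 0 ∨ p.1.2 = t p.1.1))

lemma sval_rsub [NeZero D] (t : X → Fin K) (w : X → Fin K → Fin D) (G : X → Bool) :
    sval (rsub t w) G = rl t w G := by
  funext ⟨p, b⟩
  unfold sval rsub rl host
  rcases b with _ | _
  · by_cases h : w p.1 p.2 = 0 ∨ p.2 = t p.1 <;> simp [h]
  · by_cases h : p.2 = t p.1 <;> simp [h]

variable [Fintype X] [DecidableEq X]

lemma eta_ok {c : ℕ} (hK : 800 * D * c ≤ K) : (2 * D * c : ℝ) ≤ (1 / 20) ^ 2 * K := by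
  have h2 : (800 * D * c : ℝ) ≤ K := by exact_mod_cast hK
  have h3 : (2 * D * c : ℝ) = (800 * D * c) / 400 := by ring
  rw [h3]
  have h4 : ((1 : ℝ) / 20) ^ 2 * K = K / 400 := by ring
  rw [h4]
  exact div_le_div_of_nonneg_right h2 (by norm_num)

open Classical in
/-- the transfer of lower bounds for decision problems -/
theorem nm_lower [NeZero D] (hK0 : 0 < K) (hK : 800 * D * Fintype.card X ≤ K)
    (P : (X → Bool) → Prop) (A : (X → Bool) → Prop) (S : ℕ → List ℕ → Prop) (β : ℝ)
    (hLB : ∀ (Ω' : Type) [Fintype Ω'] (w : Ω' → ℝ), (∀ r, 0 ≤ w r) → ∑ r, w r = 1 →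
      ∀ (N : Ω' → ℕ) (C : ∀ r, Circuit X (N r)) (out : ∀ r, Wire X (N r)),
        (∀ r, S (C r).size (C r).fanins) →
        ∃ M : X → Bool, A M ∧ ∑ r ∈ univ.filter (fun r => ((out r).eval M ((C r).vals M) = true ↔
          P M)), w r < β)
    (Ω : Type) [Fintype Ω] [Nonempty Ω] (N : Ω → ℕ)
    (C : ∀ ω, Circuit ((X × Fin K) × Bool) (N ω)) (out : ∀ ω, Wire ((X × Fin K) × Bool) (N ω))
    (hS : ∀ ω, S (C ω).size (C ω).fanins) :
    ∃ M : X → Bool, A M ∧ ∃ t : X → Fin K,
      faultyProbability (fun ω y => ((out ω).eval y ((C ω).vals y) = true ↔ P M)) D (host t M) <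
        β + 1 / 20 := by
  by_contra hcon
  push Not at hcon
  have : Nonempty (Fin K) := ⟨⟨0, hK0⟩⟩
  have : Nonempty (Fin D) := ⟨0⟩
  have hpos : (0 : ℝ) < Fintype.card (Choices Ω X K D) := by exact_mod_cast Fintype.card_pos
  obtain ⟨M, hAM, hM⟩ := hLB (Choices Ω X K D) (fun _ => 1 / (Fintype.card (Choices Ω X K D) : ℝ))
    (fun _ => by positivity) (by
      rw [sum_const, card_univ, nsmul_eq_mul, mul_one_div, div_self hpos.ne'])
    (fun o => N o.1) (fun o => csub (rsub o.2.1 o.2.2) (C o.1))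
    (fun o => wsub (rsub o.2.1 o.2.2) (out o.1))
    (fun o => by rw [csub_size, csub_fanins]; exact hS o.1)
  have h3 := transfer (η := 1 / 20) hK0 (by norm_num) (by norm_num) (eta_ok hK)
    (fun ω y => ((out ω).eval y ((C ω).vals y) = true ↔ P M)) M (A := β + 1 / 20)
    (fun t => hcon M hAM t)
  rw [sum_const, nsmul_eq_mul] at hM
  have h5 : (β + 1 / 20 - 1 / 20) * Fintype.card (Choices Ω X K D) ≤
      (univ.filter (fun o : Choices Ω X K D =>
      ((wsub (rsub o.2.1 o.2.2) (out o.1)).eval M ((csub (rsub o.2.1 o.2.2) (C o.1)).vals M) =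
        true ↔ P M))).card := by
    refine h3.trans (le_of_eq (congrArg (fun m : ℕ => (m : ℝ)) (congrArg Finset.card ?_)))
    ext o
    simp only [mem_filter, mem_univ, true_and]
    rw [wsub_eval, csub_vals, sval_rsub]
  have h6 : (β + 1 / 20 - 1 / 20) ≤ ((univ.filter (fun o : Choices Ω X K D =>
      ((wsub (rsub o.2.1 o.2.2) (out o.1)).eval M ((csub (rsub o.2.1 o.2.2) (C o.1)).vals M) =
        true ↔ P M))).card : ℝ) * (1 / (Fintype.card (Choices Ω X K D) : ℝ)) := by
    rw [mul_one_div, le_div_iff₀ hpos]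
    exact h5
  linarith

end Pool.Agent.Q226.FL2
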