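import Pool.Agent.Q226.FL2.Defs

/-! # The probability without faults -/

set_option autoImplicit false

namespace Pool.Agent.Q226.FL2

open Pool.Agent.Q226.FLT

/-- The probability of the event `good ω y`, where `ω` is a random member of the finite set `Ω` and
`y` is the vector of the values of the literals on the input `x`, without faults. -/
noncomputable def probability {E Ω : Type} (good : Ω → (E × Bool → Bool) → Prop)
    (x : E → Bool) : ℝ :=
  (Nat.card {ω : Ω // good ω (literals x ∅)} : ℝ) / Nat.card Ω

end Pool.Agent.Q226.FL2
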