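import Pool.Agent.Q226.FL2.Nm
import Pool.Agent.Q226.FL2.OneDefs
import Pool.Agent.Q226.FLT.Gen

/-! # The one-sided transfer for circuits of AND and OR gates -/

set_option autoImplicit false

open Finset

namespace Pool.Agent.Q226.FL2

open Pool.Agent.H520R2.NM Pool.Agent.Q226.FLT

variable {X : Type} {K D : ℕ}

/-- the literals if exactly the tags `t e` are faulty -/
def rl1 (t : X → Fin K) (G : X → Bool) : (X × Fin K) × Bool → Bool :=
  fun p => if p.2 = true then host t G p.1 else !decide (p.1.2 = t p.1.1)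

/-- the substitution given by `rl1` -/
def rsub1 (t : X → Fin K) : (X × Fin K) × Bool → X ⊕ Bool :=
  fun p => if p.2 = true then (if p.1.2 = t p.1.1 then Sum.inl p.1.1 else Sum.inr false) else
    Sum.inr (!decide (p.1.2 = t p.1.1))

lemma sval_rsub1 (t : X → Fin K) (G : X → Bool) : sval (rsub1 t) G = rl1 t G := by
  funext ⟨p, b⟩
  unfold sval rsub1 rl1 host
  rcases b with _ | _
  · by_cases h : p.2 = t p.1 <;> simp [h]
  · by_cases h : p.2 = t p.1 <;> simp [h]

lemma y_host [Fintype X] [DecidableEq X] [NeZero K] (t : X → Fin K) (G : X → Bool) :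
    Pool.Agent.Y630.TF.host (Function.Embedding.refl (X × Fin K)) (fun _ => false) t G =
      host t G := by
  funext p
  rw [Bool.eq_iff_iff, Pool.Agent.Y630.TF.host_true]
  unfold host
  simp only [Bool.false_eq_true, false_or, Function.Embedding.refl_apply, Bool.and_eq_true,
    decide_eq_true_eq]
  constructor
  · rintro ⟨x, h1, h2⟩
    rw [← h2]
    exact ⟨h1, rfl⟩
  · rintro ⟨h1, h2⟩
    exact ⟨p.1, h1, Prod.ext rfl h2.symm⟩

lemma y_rlit [Fintype X] [DecidableEq X] [NeZero K] (t : X → Fin K) (G : X → Bool) :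
    Pool.Agent.Y630.TF.rlit (Function.Embedding.refl (X × Fin K)) (fun _ => false) t G =
      rl1 t G := by
  funext ⟨p, b⟩
  unfold Pool.Agent.Y630.TF.rlit rl1
  rw [y_host, y_host]
  rcases b with _ | _
  · unfold host
    simp
  · simp

variable [Fintype X] [DecidableEq X]

open Classical in
/-- the monotone event keeps its probability, up to `η` -/
theorem one_yes (hD : 1 ≤ D) (hK0 : 0 < K) {η : ℝ} (hη : 0 < η) (hX : 0 < Fintype.card X)
    (hK : D * Real.log (2 * Fintype.card X / η) ≤ K) {Ω : Type} [Fintype Ω] [Nonempty Ω]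
    (F : Ω → ((X × Fin K) × Bool → Bool) → Prop) (hF : ∀ ω u v, u ≤ v → F ω u → F ω v)
    (G : X → Bool) {A : ℝ} (hA : ∀ t : X → Fin K, A + η ≤ faultyProbability F D (host t G)) :
    A * Fintype.card (Ω × (X → Fin K)) ≤
      ((univ.filter fun o : Ω × (X → Fin K) => F o.1 (rl1 o.2 G)).card : ℝ) := by
  have : NeZero K := ⟨hK0.ne'⟩
  have hDR : (0 : ℝ) < D := by exact_mod_cast hD
  have hΩ : (0 : ℝ) < Fintype.card Ω := by exact_mod_cast Fintype.card_pos
  have hbad := bad_small (D := D) (K := K) hD (n := Fintype.card X) (by exact_mod_cast hX) hη hK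
  have h3 := Pool.Agent.Y630.TF.transfer_yes (Function.Embedding.refl (X × Fin K))
    (fun _ => false) hD F hF A η (by rw [Fintype.card_fin]; exact hbad) G (fun t => by
      have h4 := hA t
      unfold faultyProbability at h4
      have h6 : (Nat.card (Ω × (X × Fin K → Fin D)) : ℝ) =
          Fintype.card Ω * (D : ℝ) ^ Fintype.card (X × Fin K) := by
        rw [Nat.card_eq_fintype_card, Fintype.card_prod, Fintype.card_fun, Fintype.card_fin]
        push_cast
        ring
      rw [h6, le_div_iff₀ (by positivity)] at h4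
      refine h4.trans (le_of_eq ?_)
      rw [y_host]
      congr 1
      rw [← Nat.card_coe_set_eq]
      simp only [lit_eq]
      rfl)
  have h4 : A * Fintype.card (Ω × (X → Fin K)) ≤
      (A + η / 2) * Fintype.card (Ω × (X → Fin K)) :=
    mul_le_mul_of_nonneg_right (by linarith) (Nat.cast_nonneg _)
  refine h4.trans (h3.trans (le_of_eq ?_))
  rw [Set.ncard_eq_toFinset_card']
  congr 2
  ext ω
  simp only [Set.mem_toFinset, Set.mem_setOf_eq, mem_filter, mem_univ, true_and, y_rlit]

open Classical in
/-- the probability of the monotone event does not grow -/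
theorem one_no (hK0 : 0 < K) {Ω : Type} [Fintype Ω] [Nonempty Ω]
    (F : Ω → ((X × Fin K) × Bool → Bool) → Prop) (hF : ∀ ω u v, u ≤ v → F ω u → F ω v)
    (G : X → Bool) {B : ℝ} (hB : ∀ t : X → Fin K, probability F (host t G) ≤ B) :
    ((univ.filter fun o : Ω × (X → Fin K) => F o.1 (rl1 o.2 G)).card : ℝ) ≤
      B * Fintype.card (Ω × (X → Fin K)) := by
  have : NeZero K := ⟨hK0.ne'⟩
  have hΩ : (0 : ℝ) < Fintype.card Ω := by exact_mod_cast Fintype.card_pos
  have h3 := Pool.Agent.Y630.TF.transfer_no (Function.Embedding.refl (X × Fin K))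
    (fun _ => false) F hF B G (fun t => by
      have h4 := hB t
      unfold probability at h4
      rw [Nat.card_eq_fintype_card (α := Ω), div_le_iff₀ hΩ] at h4
      refine (le_of_eq ?_).trans h4
      rw [y_host]
      congr 1
      rw [← Nat.card_coe_set_eq]
      simp only [lit_eq]
      rfl)
  refine le_trans (le_of_eq ?_) h3
  rw [Set.ncard_eq_toFinset_card']
  congr 2
  ext ω
  simp only [Set.mem_toFinset, Set.mem_setOf_eq, mem_filter, mem_univ, true_and, y_rlit]

section mono

variable {ι : Type}

lemma and_le : ∀ {a a' b b' : Bool}, a ≤ a' → b ≤ b' → (a && b) ≤ (a' && b') := by decide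

lemma or_le : ∀ {a a' b b' : Bool}, a ≤ a' → b ≤ b' → (a || b) ≤ (a' || b') := by decide

lemma weval_mono {n : ℕ} (a : Wire ι n) {x y : ι → Bool} {v v' : Fin n → Bool} (hxy : x ≤ y)
    (hv : v ≤ v') : a.eval x v ≤ a.eval y v' := by
  cases a with
  | input i => exact hxy i
  | const b => exact le_rfl
  | gate j => exact hv j

/-- circuits without arbitrary gates are monotone -/
lemma vals_mono {n : ℕ} (C : Circuit ι n) (hC : C.fanins = []) {x y : ι → Bool} (hxy : x ≤ y) :
    C.vals x ≤ C.vals y := by
  induction C with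
  | empty => intro j; exact j.elim0
  | @and n C a b ih =>
    have h1 := ih hC
    intro j
    refine Fin.lastCases ?_ (fun j => ?_) j
    · simp only [Circuit.vals, Fin.snoc_last]
      exact Pool.Agent.Q226.FL2.and_le (weval_mono a hxy h1) (weval_mono b hxy h1)
    · simp only [Circuit.vals, Fin.snoc_castSucc]
      exact h1 j
  | @or n C a b ih =>
    have h1 := ih hC
    intro j
    refine Fin.lastCases ?_ (fun j => ?_) j
    · simp only [Circuit.vals, Fin.snoc_last]
      exact Pool.Agent.Q226.FL2.or_le (weval_mono a hxy h1) (weval_mono b hxy h1)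
    · simp only [Circuit.vals, Fin.snoc_castSucc]
      exact h1 j
  | any C w u G a ih => exact absurd hC (by simp [Circuit.fanins])

end mono

end Pool.Agent.Q226.FL2
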