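import Pool.Agent.Q226.FLT.Defs

/-!
# Circuits on literals with faulty negations: success probabilities

`litInputs`, `literals`: `Pool/Agent/Q226/FLT/Defs.lean`.
-/

set_option autoImplicit false

namespace Pool.Agent.Q226.FL2

open Pool.Agent.Q226.FLT

/-- The probability of the event `good ω y`, where `ω` is a random member of the finite set `Ω` and
`y` is the vector of the values of the literals on the input `x` when each negated literal is stuck
at `0` independently with probability `1 / D`: every position `e` gets a random number `v e` from `0`
to `D - 1`, and `0` means a fault. -/
noncomputable def faultyProbability {E Ω : Type} (good : Ω → (E × Bool → Bool) → Prop) (D : ℕ)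
    (x : E → Bool) : ℝ :=
  (Nat.card {v : Ω × (E → Fin D) // good v.1 (literals x {e | (v.2 e : ℕ) = 0})} : ℝ) /
    Nat.card (Ω × (E → Fin D))

end Pool.Agent.Q226.FL2
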