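import Pool.Agent.Q226.FL2.Tv2
import Pool.Agent.Q226.FL2.Defs
import Pool.Agent.H630VC.Free2
import Pool.Agent.H630VC.Avg4

/-! # Circuits that are right under faults give circuits without negations -/

set_option autoImplicit false

open Finset

namespace Pool.Agent.Q226.FL2

open Pool.Agent.Q226.FLT H630VC

variable {X : Type} {K D : ℕ}

/-- each true position gets its tag -/
def host (t : X → Fin K) (G : X → Bool) : X × Fin K → Bool :=
  fun p => G p.1 && decide (p.2 = t p.1)

open Classical in
/-- the literals with the faults of `w` and with the tag `t e` faulty for all `e` -/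
noncomputable def rl [NeZero D] (t : X → Fin K) (w : X → Fin K → Fin D) (G : X → Bool) :
    (X × Fin K) × Bool → Bool :=
  fun p => if p.2 = true then host t G p.1 else
    if w p.1.1 p.1.2 = 0 ∨ p.1.2 = t p.1.1 then false else true

/-- the substitution of `rl` gives inputs -/
lemma rl_input {I : Type} {inp : Set (I → ℝ)} [NeZero D] (enc : I → X → Bool)
    (hbit : ∀ x, (fun i => if enc i x = true then (1 : ℝ) else 0) ∈ inp)
    (hconst : ∀ c : ℝ, (fun _ => c) ∈ inp) (t : X → Fin K) (w : X → Fin K → Fin D) :
    ∀ f ∈ litInputs (X × Fin K), (fun i => f (rl t w (enc i))) ∈ inp := by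
  rintro f (⟨⟨p, b⟩, rfl⟩ | ⟨c, rfl⟩)
  · rcases b with _ | _
    · by_cases hc : w p.1 p.2 = 0 ∨ p.2 = t p.1
      · have h1 : (fun i => if rl t w (enc i) (p, false) = true then (1 : ℝ) else 0) =
            fun _ => 0 := by
          funext i
          unfold rl
          simp [hc]
        rw [h1]
        exact hconst 0
      · have h1 : (fun i => if rl t w (enc i) (p, false) = true then (1 : ℝ) else 0) =
            fun _ => 1 := by
          funext i
          unfold rl
          simp [hc]
        rw [h1]
        exact hconst 1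
    · by_cases hc : p.2 = t p.1
      · have h1 : (fun i => if rl t w (enc i) (p, true) = true then (1 : ℝ) else 0) =
            fun i => if enc i p.1 = true then 1 else 0 := by
          funext i
          unfold rl host
          simp [hc]
        rw [h1]
        exact hbit p.1
      · have h1 : (fun i => if rl t w (enc i) (p, true) = true then (1 : ℝ) else 0) =
            fun _ => 0 := by
          funext i
          unfold rl host
          simp [hc]
        rw [h1]
        exact hconst 0
  · exact hconst c

variable [Fintype X] [DecidableEq X]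

omit [Fintype X] [DecidableEq X] in
lemma lit_false_mem {E : Type} (x : E → Bool) (Z : Set E) (p : E) (h : p ∈ Z) :
    literals x Z (p, false) = false := by
  unfold literals
  simp [h]

lemma lit_false_not {E : Type} (x : E → Bool) (Z : Set E) (p : E) (h : p ∉ Z) :
    literals x Z (p, false) = !x p := by
  unfold literals
  simp [h]

lemma lit_true {E : Type} (x : E → Bool) (Z : Set E) (p : E) :
    literals x Z (p, true) = x p := by
  unfold literals
  simp

lemma rl_eq [NeZero D] (t : X → Fin K) (w : X → Fin K → Fin D) (G : X → Bool) :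
    rl t w G = literals (host t G)
      {p | (zap (univ.filter fun e => G e = false) t w p.1 p.2 : ℕ) = 0} := by
  classical
  funext ⟨p, b⟩
  rcases b with _ | _
  · have h1 : (p ∈ {p : X × Fin K | (zap (univ.filter fun e => G e = false) t w p.1 p.2 : ℕ) = 0}) ↔
        (w p.1 p.2 = 0 ∨ (G p.1 = false ∧ p.2 = t p.1)) := by
      show (zap (univ.filter fun e => G e = false) t w p.1 p.2 : ℕ) = 0 ↔ _
      unfold zap
      by_cases h2 : p.1 ∈ (univ.filter fun e => G e = false) ∧ p.2 = t p.1
      · rw [if_pos h2]
        have h3 : G p.1 = false := (mem_filter.mp h2.1).2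
        constructor
        · intro _
          exact Or.inr ⟨h3, h2.2⟩
        · intro _
          simp
      · rw [if_neg h2]
        constructor
        · intro h3
          exact Or.inl (Fin.ext (by simpa using h3))
        · rintro (h3 | h3)
          · rw [h3]
            simp
          · exact absurd ⟨mem_filter.mpr ⟨mem_univ _, h3.1⟩, h3.2⟩ h2
    by_cases h4 : p ∈ {p : X × Fin K | (zap (univ.filter fun e => G e = false) t w p.1 p.2 : ℕ) = 0}
    · rw [lit_false_mem _ _ _ h4]
      have hc : w p.1 p.2 = 0 ∨ p.2 = t p.1 := by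
        rcases h1.mp h4 with h5 | h5
        · exact Or.inl h5
        · exact Or.inr h5.2
      unfold rl
      simp [hc]
    · rw [lit_false_not _ _ _ h4]
      have h5 : ¬ (w p.1 p.2 = 0 ∨ (G p.1 = false ∧ p.2 = t p.1)) := fun h => h4 (h1.mpr h)
      push Not at h5
      by_cases hc : p.2 = t p.1
      · have h6 : G p.1 = true := by
          by_contra h7
          exact h5.2 (by simpa using h7) hc
        unfold rl host
        simp [h6, hc]
      · unfold rl host
        simp [h5.1, hc]
  · rw [lit_true]
    unfold rl
    simp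

open Classical in
/-- counting pairs by sums of indicator functions -/
lemma card_eq_sum {Ω : Type} [Fintype Ω] (P : Ω → (X → Fin K) → (X → Fin K → Fin D) → Prop) :
    ((univ.filter fun o : Ω × (X → Fin K) × (X → Fin K → Fin D) => P o.1 o.2.1 o.2.2).card : ℝ) =
      ∑ ω : Ω, ∑ t : X → Fin K, ∑ w : X → Fin K → Fin D, if P ω t w then (1 : ℝ) else 0 := by
  rw [Finset.card_filter]
  push_cast
  rw [Fintype.sum_prod_type]
  refine sum_congr rfl fun ω _ => ?_
  rw [Fintype.sum_prod_type]

open Classical in
/-- the transfer: events -/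
theorem transfer [NeZero D] (hK : 0 < K) {η : ℝ} (hη : 0 ≤ η) (hη1 : η ≤ 1)
    (h : 2 * D * Fintype.card X ≤ η ^ 2 * K) {Ω : Type} [Fintype Ω] [Nonempty Ω]
    (good : Ω → ((X × Fin K) × Bool → Bool) → Prop) (G : X → Bool) {A : ℝ}
    (hA : ∀ t : X → Fin K, A ≤ faultyProbability good D (host t G)) :
    (A - η) * Fintype.card (Ω × (X → Fin K) × (X → Fin K → Fin D)) ≤
      ((univ.filter fun o : Ω × (X → Fin K) × (X → Fin K → Fin D) =>
        good o.1 (rl o.2.1 o.2.2 G)).card : ℝ) := by
  set S : Finset X := univ.filter fun e => G e = false with hS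
  set H : Ω → (X → Fin K) → (X → Fin K → Fin D) → ℝ := fun ω t w =>
    if good ω (literals (host t G) {p | (w p.1 p.2 : ℕ) = 0}) then 1 else 0 with hH
  have hind : ∀ ω, Indep S (H ω) := by
    intro ω t t' w htt
    have h1 : host t G = host t' G := by
      funext p
      unfold host
      by_cases h2 : G p.1 = true
      · rw [htt p.1 (fun h3 => by
          have := (mem_filter.mp h3).2
          rw [h2] at this
          exact absurd this (by simp))]
      · have h3 : G p.1 = false := by simpa using h2
        rw [h3]
        simp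
    show (if good ω (literals (host t G) _) then (1 : ℝ) else 0) =
      if good ω (literals (host t' G) _) then 1 else 0
    rw [h1]
  have h0 : ∀ ω t w, 0 ≤ H ω t w := by
    intro ω t w
    show (0 : ℝ) ≤ if _ then 1 else 0
    split_ifs <;> norm_num
  have h1 : ∀ ω t w, H ω t w ≤ 1 := by
    intro ω t w
    show (if _ then (1 : ℝ) else 0) ≤ 1
    split_ifs <;> norm_num
  have key := fun ω => tv hK hη hη1 h S (H ω) (hind ω) (h0 ω) (h1 ω)
  rw [card_eq_sum fun ω t w => good ω (rl t w G)]
  have e1 : ∀ ω : Ω, ∑ t : X → Fin K, ∑ w : X → Fin K → Fin D,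
      (if good ω (rl t w G) then (1 : ℝ) else 0) =
      ∑ t : X → Fin K, ∑ w : X → Fin K → Fin D, H ω t (zap S t w) := by
    intro ω
    refine sum_congr rfl fun t _ => sum_congr rfl fun w _ => ?_
    rw [rl_eq]
  rw [sum_congr rfl fun ω _ => e1 ω]
  have e2 : ∀ ω : Ω, ∑ t : X → Fin K, ∑ w : X → Fin K → Fin D, H ω t w -
      η * (Fintype.card (X → Fin K) * Fintype.card (X → Fin K → Fin D)) ≤
      ∑ t : X → Fin K, ∑ w : X → Fin K → Fin D, H ω t (zap S t w) := by
    intro ω
    have := (abs_le.mp (key ω)).1
    linarith
  refine le_trans ?_ (sum_le_sum fun ω _ => e2 ω)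
  rw [Finset.sum_sub_distrib, sum_const, card_univ, nsmul_eq_mul]
  -- the average of the faulty probabilities
  have hcardw : (Nat.card (Ω × (X × Fin K → Fin D)) : ℝ) =
      Fintype.card Ω * Fintype.card (X → Fin K → Fin D) := by
    rw [Nat.card_eq_fintype_card, Fintype.card_prod,
      Fintype.card_congr (Equiv.curry X (Fin K) (Fin D))]
    push_cast
    rfl
  have hDpos : 0 < D := NeZero.pos D
  have : Nonempty (Fin D) := ⟨0⟩
  have hpos : (0 : ℝ) < Fintype.card Ω * Fintype.card (X → Fin K → Fin D) := by
    have h2 : 0 < Fintype.card Ω := Fintype.card_pos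
    have h3 : 0 < Fintype.card (X → Fin K → Fin D) := Fintype.card_pos
    positivity
  have e3 : ∀ t : X → Fin K, A * (Fintype.card Ω * Fintype.card (X → Fin K → Fin D)) ≤
      ∑ ω : Ω, ∑ w : X → Fin K → Fin D, H ω t w := by
    intro t
    have h2 := hA t
    unfold faultyProbability at h2
    rw [hcardw, le_div_iff₀ hpos] at h2
    refine h2.trans (le_of_eq ?_)
    rw [Nat.card_eq_fintype_card, Fintype.card_subtype, Finset.card_filter]
    push_cast
    rw [Fintype.sum_prod_type]
    refine sum_congr rfl fun ω _ => ?_
    rw [← Equiv.sum_comp (Equiv.curry X (Fin K) (Fin D)).symm]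
    rfl
  have e4 : (∑ t : X → Fin K, A * (Fintype.card Ω * Fintype.card (X → Fin K → Fin D))) ≤
      ∑ t : X → Fin K, ∑ ω : Ω, ∑ w : X → Fin K → Fin D, H ω t w :=
    sum_le_sum fun t _ => e3 t
  rw [sum_const, card_univ, nsmul_eq_mul, sum_comm] at e4
  have e5 : ((Fintype.card (Ω × (X → Fin K) × (X → Fin K → Fin D)) : ℕ) : ℝ) =
      Fintype.card Ω * (Fintype.card (X → Fin K) * Fintype.card (X → Fin K → Fin D)) := by
    rw [Fintype.card_prod, Fintype.card_prod]
    push_cast
    rfl
  rw [e5]
  linarith

end Pool.Agent.Q226.FL2
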