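import Pool.Agent.Q226.FL2.One

/-! # The transfer of lower bounds, one-sided -/

set_option autoImplicit false

open Finset

namespace Pool.Agent.Q226.FL2

open Pool.Agent.H520R2.NM Pool.Agent.Q226.FLT

variable {X : Type} {K D : ℕ} [Fintype X] [DecidableEq X]

open Classical in
/-- the transfer of lower bounds for decision problems -/
theorem nm_lower_one (hD : 1 ≤ D) (hK0 : 0 < K) (hX : 0 < Fintype.card X)
    (hK : D * Real.log (40 * Fintype.card X) ≤ K)
    (P : (X → Bool) → Prop) (A : (X → Bool) → Prop) (S : ℕ → Prop) (β : ℝ) (hβ : β ≤ 3 / 5)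
    (hLB : ∀ (Ω' : Type) [Fintype Ω'] (w : Ω' → ℝ), (∀ r, 0 ≤ w r) → ∑ r, w r = 1 →
      ∀ (N : Ω' → ℕ) (C : ∀ r, Circuit X (N r)) (out : ∀ r, Wire X (N r)),
        (∀ r, (C r).fanins = []) → (∀ r, S (C r).size) →
        ∃ M : X → Bool, A M ∧ ∑ r ∈ univ.filter (fun r => ((out r).eval M ((C r).vals M) = true ↔
          P M)), w r < β)
    (Ω : Type) [Fintype Ω] [Nonempty Ω] (N : Ω → ℕ)
    (C : ∀ ω, Circuit ((X × Fin K) × Bool) (N ω)) (out : ∀ ω, Wire ((X × Fin K) × Bool) (N ω))
    (hfan : ∀ ω, (C ω).fanins = []) (hS : ∀ ω, S (C ω).size) :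
    ∃ M : X → Bool, A M ∧ ∃ t : X → Fin K,
      (P M ∧ faultyProbability (fun ω y => (out ω).eval y ((C ω).vals y) = true) D (host t M) <
        2 / 3) ∨
      (¬ P M ∧ 1 / 3 < probability (fun ω y => (out ω).eval y ((C ω).vals y) = true)
        (host t M)) := by
  by_contra hcon
  push Not at hcon
  have : Nonempty (Fin K) := ⟨⟨0, hK0⟩⟩
  have hpos : (0 : ℝ) < Fintype.card (Ω × (X → Fin K)) := by exact_mod_cast Fintype.card_pos
  have hmono : ∀ (ω : Ω) (u v : (X × Fin K) × Bool → Bool), u ≤ v →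
      (out ω).eval u ((C ω).vals u) = true → (out ω).eval v ((C ω).vals v) = true := by
    intro ω u v huv h
    have h1 := weval_mono (out ω) huv (vals_mono (C ω) (hfan ω) huv)
    rw [h] at h1
    exact Bool.eq_true_of_true_le h1
  obtain ⟨M, hAM, hM⟩ := hLB (Ω × (X → Fin K)) (fun _ => 1 / (Fintype.card (Ω × (X → Fin K)) : ℝ))
    (fun _ => by positivity) (by
      rw [sum_const, card_univ, nsmul_eq_mul, mul_one_div, div_self hpos.ne'])
    (fun o => N o.1) (fun o => csub (rsub1 o.2) (C o.1)) (fun o => wsub (rsub1 o.2) (out o.1))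
    (fun o => by rw [csub_fanins]; exact hfan o.1) (fun o => by rw [csub_size]; exact hS o.1)
  rw [sum_const, nsmul_eq_mul, mul_one_div, div_lt_iff₀ hpos] at hM
  have hev : ∀ o : Ω × (X → Fin K),
      (wsub (rsub1 o.2) (out o.1)).eval M ((csub (rsub1 o.2) (C o.1)).vals M) =
        (out o.1).eval (rl1 o.2 M) ((C o.1).vals (rl1 o.2 M)) := by
    intro o
    rw [wsub_eval, csub_vals, sval_rsub1]
  by_cases hP : P M
  · have h3 := one_yes (η := 1 / 20) hD hK0 (by norm_num) hX (by
        have : (2 * Fintype.card X / (1 / 20) : ℝ) = 40 * Fintype.card X := by ring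
        rw [this]
        exact hK)
      (fun ω y => (out ω).eval y ((C ω).vals y) = true) hmono M (A := 2 / 3 - 1 / 20)
      (fun t => by
        have := (hcon M hAM t).1 hP
        linarith)
    have h4 : (2 / 3 - 1 / 20 : ℝ) * Fintype.card (Ω × (X → Fin K)) <
        β * Fintype.card (Ω × (X → Fin K)) := by
      refine lt_of_le_of_lt (h3.trans (Nat.cast_le.mpr (card_le_card fun o ho => ?_))) hM
      simp only [mem_filter, mem_univ, true_and] at ho ⊢
      rw [hev o]
      exact ⟨fun _ => hP, fun _ => ho⟩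
    have h6 := lt_of_mul_lt_mul_right h4 hpos.le
    linarith
  · have h3 := one_no hK0 (fun ω y => (out ω).eval y ((C ω).vals y) = true) hmono M (B := 1 / 3)
      (fun t => (hcon M hAM t).2 hP)
    have h4 : (Fintype.card (Ω × (X → Fin K)) : ℝ) <
        1 / 3 * Fintype.card (Ω × (X → Fin K)) + β * Fintype.card (Ω × (X → Fin K)) := by
      refine lt_of_le_of_lt (le_trans ?_ (add_le_add h3 le_rfl))
        (add_lt_add_of_le_of_lt le_rfl hM)
      rw [← Nat.cast_add, ← card_univ]
      refine Nat.cast_le.mpr ((card_le_card fun o _ => ?_).trans (card_union_le _ _))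
      simp only [mem_union, mem_filter, mem_univ, true_and]
      by_cases h5 : (out o.1).eval (rl1 o.2 M) ((C o.1).vals (rl1 o.2 M)) = true
      · exact Or.inl h5
      · refine Or.inr ?_
        rw [hev o]
        exact ⟨fun h => absurd h h5, fun h => absurd h hP⟩
    have h5 : (2 / 3 : ℝ) * Fintype.card (Ω × (X → Fin K)) <
        β * Fintype.card (Ω × (X → Fin K)) := by linarith
    have h6 := lt_of_mul_lt_mul_right h5 hpos.le
    linarith

end Pool.Agent.Q226.FL2
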