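import Mathlib

/-!
# Hiding one tag per position in random faults, two-sided version

`X` positions, `K` tags, fault numbers in `Fin D`; `(w e k : ℕ) = 0` means that the position `e` with
the tag `k` is faulty. `zap S t w` makes the tag `t e` faulty for all `e ∈ S`. For functions which do
not depend on the tags `t e`, `e ∈ S`, the averages over `t, w` with and without `zap` differ by
little.
-/

set_option autoImplicit false

open Finset

namespace Pool.Agent.Q226.FL2

variable {X : Type} [Fintype X] [DecidableEq X] {K D : ℕ}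

/-- the number of faulty tags -/
def z [NeZero D] (u : Fin K → Fin D) : ℕ := (univ.filter fun k => u k = 0).card

/-- make the tags `t e`, `e ∈ S`, faulty -/
def zap [NeZero D] (S : Finset X) (t : X → Fin K) (w : X → Fin K → Fin D) : X → Fin K → Fin D :=
  fun e k => if e ∈ S ∧ k = t e then 0 else w e k

/-- `H` does not depend on the tags in `S` -/
def Indep (S : Finset X) (H : (X → Fin K) → (X → Fin K → Fin D) → ℝ) : Prop :=
  ∀ t t' w, (∀ e, e ∉ S → t e = t' e) → H t w = H t' w

/-- the tag of one position does not matter: average over it -/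
lemma sum_update (e : X) (f : (X → Fin K) → Fin K → ℝ)
    (hf : ∀ t k k', f (Function.update t e k') k = f t k) :
    (K : ℝ) * ∑ t : X → Fin K, f t (t e) = ∑ t : X → Fin K, ∑ k, f t k := by
  have h1 : ∑ t : X → Fin K, ∑ k, f t k =
      ∑ p : (X → Fin K) × Fin K, f p.1 p.2 := by rw [Fintype.sum_prod_type]
  have h2 : (K : ℝ) * ∑ t : X → Fin K, f t (t e) = ∑ p : (X → Fin K) × Fin K, f p.1 (p.1 e) := by
    rw [Fintype.sum_prod_type, mul_sum]
    refine sum_congr rfl fun t _ => ?_
    simp
  rw [h1, h2]
  -- the bijection `(t, k) ↦ (t[e := k], t e)`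
  let φ : (X → Fin K) × Fin K ≃ (X → Fin K) × Fin K :=
    { toFun := fun p => (Function.update p.1 e p.2, p.1 e)
      invFun := fun p => (Function.update p.1 e p.2, p.1 e)
      left_inv := by
        rintro ⟨t, k⟩
        simp
      right_inv := by
        rintro ⟨t, k⟩
        simp }
  rw [← Equiv.sum_comp φ (fun p => f p.1 (p.1 e))]
  refine sum_congr rfl fun p _ => ?_
  show f (Function.update p.1 e p.2) (Function.update p.1 e p.2 e) = f p.1 p.2
  rw [Function.update_self, hf]

/-- resampling one fault number -/
lemma sum_zero [NeZero D] (e : X) (k : Fin K) (h : (X → Fin K → Fin D) → ℝ) :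
    ∑ w : X → Fin K → Fin D, h (Function.update w e (Function.update (w e) k 0)) =
      D * ∑ w : X → Fin K → Fin D, if w e k = 0 then h w else 0 := by
  have h1 : (D : ℝ) * ∑ w : X → Fin K → Fin D, (if w e k = 0 then h w else 0) =
      ∑ p : (X → Fin K → Fin D) × Fin D, if p.1 e k = 0 then h p.1 else 0 := by
    rw [Fintype.sum_prod_type, mul_sum]
    refine sum_congr rfl fun w _ => ?_
    simp
  have h2 : ∑ w : X → Fin K → Fin D, h (Function.update w e (Function.update (w e) k 0)) =
      ∑ p : (X → Fin K → Fin D) × Fin D,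
        if p.2 = 0 then h (Function.update p.1 e (Function.update (p.1 e) k 0)) else 0 := by
    rw [Fintype.sum_prod_type]
    refine sum_congr rfl fun w _ => ?_
    rw [Finset.sum_ite_eq' univ (0 : Fin D)
      (fun _ => h (Function.update w e (Function.update (w e) k 0)))]
    simp
  rw [h1, h2]
  let φ : (X → Fin K → Fin D) × Fin D ≃ (X → Fin K → Fin D) × Fin D :=
    { toFun := fun p => (Function.update p.1 e (Function.update (p.1 e) k p.2), p.1 e k)
      invFun := fun p => (Function.update p.1 e (Function.update (p.1 e) k p.2), p.1 e k)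
      left_inv := by
        rintro ⟨w, d⟩
        simp
      right_inv := by
        rintro ⟨w, d⟩
        simp }
  rw [← Equiv.sum_comp φ (fun p => if p.1 e k = 0 then h p.1 else 0)]
  refine sum_congr rfl fun p _ => ?_
  have h3 : (φ p).1 e k = p.2 := by
    show (Function.update p.1 e (Function.update (p.1 e) k p.2)) e k = p.2
    rw [Function.update_self, Function.update_self]
  rw [h3]
  by_cases h4 : p.2 = 0
  · rw [if_pos h4, if_pos h4]
    show h _ = h (Function.update p.1 e (Function.update (p.1 e) k p.2))
    rw [h4]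
  · rw [if_neg h4, if_neg h4]

/-- one position -/
lemma one_step [NeZero D] (hK : 0 < K) (e : X) (H : (X → Fin K) → (X → Fin K → Fin D) → ℝ)
    (hH : Indep {e} H) :
    ∑ t : X → Fin K, ∑ w : X → Fin K → Fin D, H t (zap {e} t w) =
      ∑ t : X → Fin K, ∑ w : X → Fin K → Fin D, ((D : ℝ) / K * z (w e)) * H t w := by
  have hKR : (K : ℝ) ≠ 0 := by exact_mod_cast hK.ne'
  have h1 : ∀ (t : X → Fin K) (w : X → Fin K → Fin D),
      zap {e} t w = Function.update w e (Function.update (w e) (t e) 0) := by
    intro t w
    funext e' k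
    unfold zap
    by_cases he : e' = e
    · subst he
      rw [Function.update_self]
      by_cases hk : k = t e'
      · subst hk
        simp
      · rw [Function.update_of_ne hk, if_neg (fun h => hk h.2)]
    · rw [Function.update_of_ne he, if_neg (fun h => he (mem_singleton.mp h.1))]
  have h2 := sum_update (K := K) e (fun t k => ∑ w : X → Fin K → Fin D,
    H t (Function.update w e (Function.update (w e) k 0))) (fun t k k' => by
      refine sum_congr rfl fun w _ => ?_
      refine hH _ _ _ fun e' he' => ?_
      rw [mem_singleton] at he'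
      rw [Function.update_of_ne he'])
  have h3 : ∑ t : X → Fin K, ∑ w : X → Fin K → Fin D, H t (zap {e} t w) =
      (1 / (K : ℝ)) * ((K : ℝ) * ∑ t : X → Fin K, ∑ w : X → Fin K → Fin D,
        H t (Function.update w e (Function.update (w e) (t e) 0))) := by
    rw [← mul_assoc, one_div, inv_mul_cancel₀ hKR, one_mul]
    refine sum_congr rfl fun t _ => sum_congr rfl fun w _ => ?_
    rw [h1]
  rw [h3, h2, mul_sum]
  refine sum_congr rfl fun t _ => ?_
  have h4 : ∀ k : Fin K, ∑ w : X → Fin K → Fin D,
      H t (Function.update w e (Function.update (w e) k 0)) =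
      D * ∑ w : X → Fin K → Fin D, if w e k = 0 then H t w else 0 :=
    fun k => sum_zero e k (H t)
  rw [sum_congr rfl fun k _ => h4 k, ← mul_sum, sum_comm, ← mul_assoc, mul_sum]
  refine sum_congr rfl fun w _ => ?_
  have h5 : ∑ k : Fin K, (if w e k = 0 then H t w else 0) = z (w e) * H t w := by
    rw [← Finset.sum_filter, Finset.sum_const, nsmul_eq_mul]
    rfl
  rw [h5]
  ring

/-- all positions in `S` -/
lemma many_steps [NeZero D] (hK : 0 < K) (S : Finset X) :
    ∀ H : (X → Fin K) → (X → Fin K → Fin D) → ℝ, Indep S H →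
    ∑ t : X → Fin K, ∑ w : X → Fin K → Fin D, H t (zap S t w) =
      ∑ t : X → Fin K, ∑ w : X → Fin K → Fin D, (∏ e ∈ S, ((D : ℝ) / K * z (w e))) * H t w := by
  induction S using Finset.induction_on with
  | empty =>
    intro H _
    refine sum_congr rfl fun t _ => sum_congr rfl fun w _ => ?_
    have h : zap ∅ t w = w := by
      funext e k
      unfold zap
      simp
    rw [prod_empty, one_mul, h]
  | insert e S he ih =>
    intro H hH
    have h1 : ∀ (t : X → Fin K) (w : X → Fin K → Fin D),
        zap (insert e S) t w = zap S t (zap {e} t w) := by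
      intro t w
      funext e' k
      unfold zap
      by_cases h : e' ∈ S ∧ k = t e'
      · rw [if_pos h, if_pos ⟨mem_insert_of_mem h.1, h.2⟩]
      · rw [if_neg h]
        by_cases h2 : e' ∈ ({e} : Finset X) ∧ k = t e'
        · rw [if_pos h2, if_pos ⟨by rw [mem_singleton.mp h2.1]; exact mem_insert_self _ _, h2.2⟩]
        · rw [if_neg h2, if_neg]
          rintro ⟨h3, h4⟩
          rcases mem_insert.mp h3 with h5 | h5
          · exact h2 ⟨mem_singleton.mpr h5, h4⟩
          · exact h ⟨h5, h4⟩
    have h2 := one_step hK e (fun t w => H t (zap S t w)) (fun t t' w h => by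
      have h3 : zap S t w = zap S t' w := by
        funext e' k
        unfold zap
        by_cases h4 : e' ∈ S
        · have h5 : t e' = t' e' := h e' (fun h6 => he (by rw [← mem_singleton.mp h6]; exact h4))
          rw [h5]
        · rw [if_neg (fun h => h4 h.1), if_neg (fun h => h4 h.1)]
      show H t (zap S t w) = H t' (zap S t' w)
      rw [h3]
      refine hH _ _ _ fun e' he' => h e' (fun h6 => he' ?_)
      rw [mem_singleton.mp h6]
      exact mem_insert_self _ _)
    have h3 : ∀ (t : X → Fin K) (w : X → Fin K → Fin D), z (w e) = z (zap S t w e) := by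
      intro t w
      congr 1
      funext k
      unfold zap
      rw [if_neg (fun h => he h.1)]
    have h4 := ih (fun t w => ((D : ℝ) / K * z (w e)) * H t w) (fun t t' w h => by
      show _ * H t w = _ * H t' w
      rw [hH t t' w fun e' he' => h e' (fun h6 => he' (mem_insert_of_mem h6))])
    calc ∑ t : X → Fin K, ∑ w : X → Fin K → Fin D, H t (zap (insert e S) t w)
        = ∑ t : X → Fin K, ∑ w : X → Fin K → Fin D, H t (zap S t (zap {e} t w)) := by
          refine sum_congr rfl fun t _ => sum_congr rfl fun w _ => ?_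
          rw [h1]
      _ = ∑ t : X → Fin K, ∑ w : X → Fin K → Fin D,
            ((D : ℝ) / K * z (w e)) * H t (zap S t w) := h2
      _ = ∑ t : X → Fin K, ∑ w : X → Fin K → Fin D,
            ((D : ℝ) / K * z (zap S t w e)) * H t (zap S t w) := by
          refine sum_congr rfl fun t _ => sum_congr rfl fun w _ => ?_
          rw [h3 t w]
      _ = ∑ t : X → Fin K, ∑ w : X → Fin K → Fin D,
            (∏ e ∈ S, ((D : ℝ) / K * z (w e))) * (((D : ℝ) / K * z (w e)) * H t w) := h4
      _ = _ := by
          refine sum_congr rfl fun t _ => sum_congr rfl fun w _ => ?_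
          rw [prod_insert he]
          ring

/-- the first moment -/
lemma mom1 [NeZero D] (hK : 0 < K) :
    ∑ u : Fin K → Fin D, ((D : ℝ) / K * z u) = (D : ℝ) ^ K := by
  have hKR : (K : ℝ) ≠ 0 := by exact_mod_cast hK.ne'
  have h1 : ∀ k : Fin K, ∑ u : Fin K → Fin D, (if u k = 0 then (1 : ℝ) else 0) * D = (D : ℝ) ^ K := by
    intro k
    rw [← sum_mul]
    have h2 : ∑ u : Fin K → Fin D, (if u k = 0 then (1 : ℝ) else 0) * D =
        ∑ u : Fin K → Fin D, (1 : ℝ) := by
      have h3 : ∑ p : (Fin K → Fin D) × Fin D, (if p.1 k = 0 then (1 : ℝ) else 0) =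
          ∑ p : (Fin K → Fin D) × Fin D, (if p.2 = 0 then (1 : ℝ) else 0) := by
        let φ : (Fin K → Fin D) × Fin D ≃ (Fin K → Fin D) × Fin D :=
          { toFun := fun p => (Function.update p.1 k p.2, p.1 k)
            invFun := fun p => (Function.update p.1 k p.2, p.1 k)
            left_inv := by
              rintro ⟨w, d⟩
              simp
            right_inv := by
              rintro ⟨w, d⟩
              simp }
        rw [← Equiv.sum_comp φ (fun p => if p.1 k = 0 then (1 : ℝ) else 0)]
        refine sum_congr rfl fun p _ => ?_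
        show (if Function.update p.1 k p.2 k = 0 then (1 : ℝ) else 0) = _
        rw [Function.update_self]
      rw [Fintype.sum_prod_type, Fintype.sum_prod_type] at h3
      have h4 : ∀ u : Fin K → Fin D, ∑ _d : Fin D, (if u k = 0 then (1 : ℝ) else 0) =
          (if u k = 0 then (1 : ℝ) else 0) * D := by
        intro u
        rw [sum_const, card_univ, Fintype.card_fin, nsmul_eq_mul, mul_comm]
      have h5 : ∀ _u : Fin K → Fin D, ∑ d : Fin D, (if d = 0 then (1 : ℝ) else 0) = 1 := by
        intro _
        simp
      rw [sum_congr rfl fun u _ => h4 u, sum_congr rfl fun u _ => h5 u] at h3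
      exact h3
    rw [sum_mul, h2, sum_const, card_univ, Fintype.card_fun, Fintype.card_fin, Fintype.card_fin,
      nsmul_eq_mul, mul_one]
    push_cast
    rfl
  have h2 : ∀ u : Fin K → Fin D, ((D : ℝ) / K * z u) =
      (1 / (K : ℝ)) * ∑ k : Fin K, (if u k = 0 then (1 : ℝ) else 0) * D := by
    intro u
    have h3 : (z u : ℝ) = ∑ k : Fin K, (if u k = 0 then (1 : ℝ) else 0) := by
      unfold z
      rw [← Finset.sum_filter, sum_const, nsmul_eq_mul, mul_one]
    rw [h3, ← sum_mul]
    ring
  rw [sum_congr rfl fun u _ => h2 u, ← mul_sum, sum_comm, sum_congr rfl fun k _ => h1 k, sum_const,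
    card_univ, Fintype.card_fin, nsmul_eq_mul]
  field_simp

/-- the probability that two given tags are faulty -/
lemma two_faults [NeZero D] (k k' : Fin K) (h : k ≠ k') :
    (∑ u : Fin K → Fin D, (if u k = 0 ∧ u k' = 0 then (1 : ℝ) else 0)) * D * D = (D : ℝ) ^ K := by
  have h3 : ∑ p : (Fin K → Fin D) × (Fin D × Fin D),
      (if p.1 k = 0 ∧ p.1 k' = 0 then (1 : ℝ) else 0) =
      ∑ p : (Fin K → Fin D) × (Fin D × Fin D), (if p.2.1 = 0 ∧ p.2.2 = 0 then (1 : ℝ) else 0) := by
    let φ : (Fin K → Fin D) × (Fin D × Fin D) ≃ (Fin K → Fin D) × (Fin D × Fin D) :=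
      { toFun := fun p => (Function.update (Function.update p.1 k p.2.1) k' p.2.2,
          (p.1 k, p.1 k'))
        invFun := fun p => (Function.update (Function.update p.1 k p.2.1) k' p.2.2,
          (p.1 k, p.1 k'))
        left_inv := by
          rintro ⟨w, d, d'⟩
          simp only [Prod.mk.injEq]
          refine ⟨?_, ?_, ?_⟩
          · funext i
            by_cases h1 : i = k'
            · subst h1
              simp
            · by_cases h2 : i = k
              · subst h2
                simp [h1]
              · simp [h1, h2]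
          · simp [h]
          · simp
        right_inv := by
          rintro ⟨w, d, d'⟩
          simp only [Prod.mk.injEq]
          refine ⟨?_, ?_, ?_⟩
          · funext i
            by_cases h1 : i = k'
            · subst h1
              simp
            · by_cases h2 : i = k
              · subst h2
                simp [h1]
              · simp [h1, h2]
          · simp [h]
          · simp }
    rw [← Equiv.sum_comp φ (fun p => if p.1 k = 0 ∧ p.1 k' = 0 then (1 : ℝ) else 0)]
    refine sum_congr rfl fun p _ => ?_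
    show (if Function.update (Function.update p.1 k p.2.1) k' p.2.2 k = 0 ∧
      Function.update (Function.update p.1 k p.2.1) k' p.2.2 k' = 0 then (1 : ℝ) else 0) = _
    rw [Function.update_self, Function.update_of_ne h, Function.update_self]
  rw [Fintype.sum_prod_type, Fintype.sum_prod_type] at h3
  have h4 : ∀ u : Fin K → Fin D, ∑ _d : Fin D × Fin D,
      (if u k = 0 ∧ u k' = 0 then (1 : ℝ) else 0) =
      (if u k = 0 ∧ u k' = 0 then (1 : ℝ) else 0) * (D * D) := by
    intro u
    rw [sum_const, card_univ, Fintype.card_prod, Fintype.card_fin, nsmul_eq_mul, mul_comm]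
    push_cast
    ring
  have h5 : ∀ _u : Fin K → Fin D,
      ∑ d : Fin D × Fin D, (if d.1 = 0 ∧ d.2 = 0 then (1 : ℝ) else 0) = 1 := by
    intro _
    rw [Finset.sum_eq_single (0, 0)]
    · simp
    · rintro ⟨d, d'⟩ _ hd
      rw [if_neg]
      rintro ⟨h6, h7⟩
      exact hd (Prod.ext h6 h7)
    · intro h6
      exact absurd (mem_univ _) h6
  rw [sum_congr rfl fun u _ => h4 u, sum_congr rfl fun u _ => h5 u, ← sum_mul, sum_const, card_univ,
    Fintype.card_fun, Fintype.card_fin, Fintype.card_fin, nsmul_eq_mul, mul_one] at h3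
  rw [mul_assoc, h3]
  push_cast
  rfl

/-- the second moment -/
lemma mom2 [NeZero D] (hK : 0 < K) :
    ∑ u : Fin K → Fin D, ((D : ℝ) / K * z u) ^ 2 = (D : ℝ) ^ K * (1 + ((D : ℝ) - 1) / K) := by
  have hKR : (K : ℝ) ≠ 0 := by exact_mod_cast hK.ne'
  have hDR : (D : ℝ) ≠ 0 := by exact_mod_cast (NeZero.ne D)
  have h2 : ∀ u : Fin K → Fin D, ((z u : ℝ)) ^ 2 =
      ∑ k : Fin K, ∑ k' : Fin K, (if u k = 0 ∧ u k' = 0 then (1 : ℝ) else 0) := by
    intro u
    have h3 : (z u : ℝ) = ∑ k : Fin K, (if u k = 0 then (1 : ℝ) else 0) := by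
      unfold z
      rw [← Finset.sum_filter, sum_const, nsmul_eq_mul, mul_one]
    rw [h3, sq, sum_mul_sum]
    refine sum_congr rfl fun k _ => sum_congr rfl fun k' _ => ?_
    by_cases h4 : u k = 0 <;> by_cases h5 : u k' = 0 <;> simp [h4, h5]
  -- the diagonal
  have hdiag : ∀ k : Fin K, (∑ u : Fin K → Fin D, (if u k = 0 ∧ u k = 0 then (1 : ℝ) else 0)) * D =
      (D : ℝ) ^ K := by
    intro k
    have h3 : ∑ p : (Fin K → Fin D) × Fin D, (if p.1 k = 0 then (1 : ℝ) else 0) =
        ∑ p : (Fin K → Fin D) × Fin D, (if p.2 = 0 then (1 : ℝ) else 0) := by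
      let φ : (Fin K → Fin D) × Fin D ≃ (Fin K → Fin D) × Fin D :=
        { toFun := fun p => (Function.update p.1 k p.2, p.1 k)
          invFun := fun p => (Function.update p.1 k p.2, p.1 k)
          left_inv := by
            rintro ⟨w, d⟩
            simp
          right_inv := by
            rintro ⟨w, d⟩
            simp }
      rw [← Equiv.sum_comp φ (fun p => if p.1 k = 0 then (1 : ℝ) else 0)]
      refine sum_congr rfl fun p _ => ?_
      show (if Function.update p.1 k p.2 k = 0 then (1 : ℝ) else 0) = _
      rw [Function.update_self]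
    rw [Fintype.sum_prod_type, Fintype.sum_prod_type] at h3
    have h4 : ∀ u : Fin K → Fin D, ∑ _d : Fin D, (if u k = 0 then (1 : ℝ) else 0) =
        (if u k = 0 ∧ u k = 0 then (1 : ℝ) else 0) * D := by
      intro u
      rw [sum_const, card_univ, Fintype.card_fin, nsmul_eq_mul, mul_comm]
      simp
    have h5 : ∀ _u : Fin K → Fin D, ∑ d : Fin D, (if d = 0 then (1 : ℝ) else 0) = 1 := by
      intro _
      simp
    rw [sum_congr rfl fun u _ => h4 u, sum_congr rfl fun u _ => h5 u, ← sum_mul, sum_const,
      card_univ, Fintype.card_fun, Fintype.card_fin, Fintype.card_fin, nsmul_eq_mul, mul_one] at h3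
    rw [h3]
    push_cast
    rfl
  have hsum : (∑ u : Fin K → Fin D, ((z u : ℝ)) ^ 2) * (D * D) =
      (D : ℝ) ^ K * (K * D + K * (K - 1)) := by
    rw [sum_congr rfl fun u _ => h2 u, sum_comm]
    have h3 : ∀ k : Fin K, (∑ u : Fin K → Fin D, ∑ k' : Fin K,
        (if u k = 0 ∧ u k' = 0 then (1 : ℝ) else 0)) * (D * D) =
        (D : ℝ) ^ K * (D + (K - 1)) := by
      intro k
      rw [sum_comm, ← Finset.add_sum_erase univ _ (mem_univ k), add_mul]
      have e1 : (∑ u : Fin K → Fin D, (if u k = 0 ∧ u k = 0 then (1 : ℝ) else 0)) * (D * D) =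
          (D : ℝ) ^ K * D := by
        rw [← mul_assoc, hdiag]
      have e2 : ∑ k' ∈ univ.erase k, (∑ u : Fin K → Fin D,
          (if u k = 0 ∧ u k' = 0 then (1 : ℝ) else 0)) * (D * D) =
          ∑ _k' ∈ univ.erase k, (D : ℝ) ^ K := by
        refine sum_congr rfl fun k' hk' => ?_
        rw [← mul_assoc]
        exact two_faults k k' (ne_of_mem_erase hk').symm
      rw [e1, sum_mul, e2, sum_const, card_erase_of_mem (mem_univ k), card_univ, Fintype.card_fin,
        nsmul_eq_mul, Nat.cast_sub hK]
      push_cast
      ring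
    rw [sum_mul, sum_congr rfl fun k _ => h3 k, sum_const, card_univ, Fintype.card_fin,
      nsmul_eq_mul]
    ring
  have h4 : ∑ u : Fin K → Fin D, ((D : ℝ) / K * z u) ^ 2 =
      (∑ u : Fin K → Fin D, ((z u : ℝ)) ^ 2) * (D * D) / (K * K) := by
    rw [sum_mul, sum_div]
    refine sum_congr rfl fun u _ => ?_
    field_simp
  rw [h4, hsum]
  field_simp
  ring

end Pool.Agent.Q226.FL2
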