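import Pool.Agent.Q226.FL2.Tv

/-! # The total variation bound -/

set_option autoImplicit false

open Finset

namespace Pool.Agent.Q226.FL2

variable {X : Type} [Fintype X] [DecidableEq X] {K D : ℕ}

lemma sum_prod_of [NeZero D] (S : Finset X) (ρ : (Fin K → Fin D) → ℝ) :
    ∑ w : X → Fin K → Fin D, ∏ e ∈ S, ρ (w e) =
      (∑ u : Fin K → Fin D, ρ u) ^ S.card * ((D : ℝ) ^ K) ^ (Fintype.card X - S.card) := by
  classical
  have h1 : ∀ w : X → Fin K → Fin D, ∏ e ∈ S, ρ (w e) =
      ∏ e : X, (if e ∈ S then ρ (w e) else 1) := by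
    intro w
    rw [Finset.prod_ite, Finset.prod_const_one, mul_one]
    congr 1
    ext e
    simp
  have h2 := Finset.prod_univ_sum (fun _ : X => (univ : Finset (Fin K → Fin D)))
    (fun e u => if e ∈ S then ρ u else 1)
  rw [Fintype.piFinset_univ] at h2
  rw [sum_congr rfl fun w _ => h1 w, ← h2]
  have h3 : ∀ e : X, ∑ u : Fin K → Fin D, (if e ∈ S then ρ u else 1) =
      if e ∈ S then ∑ u : Fin K → Fin D, ρ u else (D : ℝ) ^ K := by
    intro e
    by_cases he : e ∈ S
    · simp [he]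
    · simp [he]
  rw [prod_congr rfl fun e _ => h3 e, Finset.prod_ite, prod_const, prod_const]
  congr 2
  · congr 1
    ext e
    simp
  · have h4 : (univ.filter fun e => e ∉ S) = univ \ S := by
      ext e
      simp
    rw [h4, card_sdiff_of_subset (subset_univ S), card_univ]

/-- the two averages differ by at most `η` -/
theorem tv [NeZero D] (hK : 0 < K) {η : ℝ} (hη : 0 ≤ η) (hη1 : η ≤ 1)
    (h : 2 * D * Fintype.card X ≤ η ^ 2 * K) (S : Finset X)
    (H : (X → Fin K) → (X → Fin K → Fin D) → ℝ) (hH : Indep S H) (h0 : ∀ t w, 0 ≤ H t w)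
    (h1 : ∀ t w, H t w ≤ 1) :
    |∑ t : X → Fin K, ∑ w : X → Fin K → Fin D, H t (zap S t w) -
      ∑ t : X → Fin K, ∑ w : X → Fin K → Fin D, H t w| ≤
      η * (Fintype.card (X → Fin K) * Fintype.card (X → Fin K → Fin D)) := by
  have hKR : (0 : ℝ) < K := by exact_mod_cast hK
  have hDR : (0 : ℝ) < D := by exact_mod_cast (NeZero.pos D)
  set R : (X → Fin K → Fin D) → ℝ := fun w => ∏ e ∈ S, ((D : ℝ) / K * z (w e)) with hR
  have hRdef : ∀ w : X → Fin K → Fin D, R w = ∏ e ∈ S, ((D : ℝ) / K * z (w e)) := fun _ => rfl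
  have hN : ((Fintype.card (X → Fin K → Fin D) : ℕ) : ℝ) = ((D : ℝ) ^ K) ^ Fintype.card X := by
    rw [Fintype.card_fun, Fintype.card_fun, Fintype.card_fin, Fintype.card_fin]
    push_cast
    rfl
  set N : ℝ := ((D : ℝ) ^ K) ^ Fintype.card X with hNdef
  have hNpos : 0 < N := by positivity
  have hSX : S.card ≤ Fintype.card X := card_le_univ S
  -- first moment
  have m1 : ∑ w : X → Fin K → Fin D, R w = N := by
    rw [sum_congr rfl fun w _ => hRdef w,
      sum_prod_of S (fun u : Fin K → Fin D => (D : ℝ) / K * z u), mom1 hK, ← pow_add, hNdef]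
    congr 1
    omega
  -- second moment
  have m2 : ∑ w : X → Fin K → Fin D, R w ^ 2 ≤ N * (1 + η ^ 2) := by
    have e1 : ∀ w : X → Fin K → Fin D, R w ^ 2 =
        ∏ e ∈ S, ((D : ℝ) / K * z (w e)) ^ 2 := by
      intro w
      rw [hRdef, prod_pow]
    rw [sum_congr rfl fun w _ => e1 w,
      sum_prod_of S (fun u : Fin K → Fin D => ((D : ℝ) / K * z u) ^ 2), mom2 hK, mul_pow]
    have e2 : ((D : ℝ) ^ K) ^ S.card * (1 + ((D : ℝ) - 1) / K) ^ S.card *
        ((D : ℝ) ^ K) ^ (Fintype.card X - S.card) =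
        N * (1 + ((D : ℝ) - 1) / K) ^ S.card := by
      rw [mul_right_comm, ← pow_add, hNdef]
      congr 3
      omega
    rw [e2]
    refine mul_le_mul_of_nonneg_left ?_ hNpos.le
    have e3 : (1 : ℝ) + ((D : ℝ) - 1) / K ≤ Real.exp (D / K) := by
      have e4 := Real.add_one_le_exp ((D : ℝ) / K)
      have e5 : ((D : ℝ) - 1) / K ≤ D / K := by
        apply div_le_div_of_nonneg_right _ hKR.le
        linarith
      linarith
    have e4 : (0 : ℝ) ≤ 1 + ((D : ℝ) - 1) / K := by
      have : (1 : ℝ) ≤ D := by exact_mod_cast (NeZero.pos D)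
      have h2 : 0 ≤ ((D : ℝ) - 1) / K := div_nonneg (by linarith) hKR.le
      linarith
    have e5 : (D : ℝ) / K * S.card ≤ η ^ 2 / 2 := by
      have e6 : (S.card : ℝ) ≤ Fintype.card X := by exact_mod_cast hSX
      rw [div_mul_eq_mul_div, div_le_iff₀ hKR]
      have e7 : (D : ℝ) * S.card ≤ D * Fintype.card X := mul_le_mul_of_nonneg_left e6 hDR.le
      nlinarith
    have e6 : (1 + ((D : ℝ) - 1) / K) ^ S.card ≤ Real.exp (η ^ 2 / 2) := by
      calc (1 + ((D : ℝ) - 1) / K) ^ S.card ≤ Real.exp (D / K) ^ S.card :=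
            pow_le_pow_left₀ e4 e3 _
        _ = Real.exp (D / K * S.card) := by
            rw [← Real.exp_nat_mul]
            congr 1
            ring
        _ ≤ _ := Real.exp_le_exp.mpr e5
    refine e6.trans ?_
    have e7 : η ^ 2 / 2 ≤ 1 / 2 := by nlinarith
    have e8 : (0 : ℝ) ≤ η ^ 2 / 2 := by positivity
    have e9 := Real.exp_bound_div_one_sub_of_interval e8 (by linarith : η ^ 2 / 2 < 1)
    refine e9.trans ?_
    rw [div_le_iff₀ (by linarith)]
    nlinarith [sq_nonneg (η ^ 2)]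
  -- the difference
  have hd : ∑ w : X → Fin K → Fin D, (R w - 1) ^ 2 ≤ N * η ^ 2 := by
    have e1 : ∑ w : X → Fin K → Fin D, (R w - 1) ^ 2 =
        ∑ w : X → Fin K → Fin D, R w ^ 2 - 2 * ∑ w : X → Fin K → Fin D, R w + N := by
      rw [mul_sum, ← Finset.sum_sub_distrib]
      have e2 : N = ∑ _w : X → Fin K → Fin D, (1 : ℝ) := by
        rw [sum_const, card_univ, nsmul_eq_mul, mul_one, hN]
      conv_rhs => rw [e2]
      rw [← sum_add_distrib]
      refine sum_congr rfl fun w _ => ?_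
      ring
    rw [e1, m1]
    linarith
  have habs : ∑ w : X → Fin K → Fin D, |R w - 1| ≤ N * η := by
    have e1 : (∑ w : X → Fin K → Fin D, |R w - 1|) ^ 2 ≤
        Fintype.card (X → Fin K → Fin D) * ∑ w : X → Fin K → Fin D, |R w - 1| ^ 2 := by
      have := sq_sum_le_card_mul_sum_sq (s := (univ : Finset (X → Fin K → Fin D)))
        (f := fun w => |R w - 1|)
      rwa [card_univ] at this
    have e2 : ∑ w : X → Fin K → Fin D, |R w - 1| ^ 2 = ∑ w : X → Fin K → Fin D, (R w - 1) ^ 2 :=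
      sum_congr rfl fun w _ => sq_abs _
    rw [e2, hN] at e1
    have e3 : (∑ w : X → Fin K → Fin D, |R w - 1|) ^ 2 ≤ (N * η) ^ 2 := by
      refine e1.trans ?_
      rw [mul_pow, sq N, mul_assoc]
      exact mul_le_mul_of_nonneg_left hd hNpos.le
    exact abs_le_of_sq_le_sq' e3 (by positivity) |>.2
  rw [many_steps hK S H hH, ← Finset.sum_sub_distrib]
  refine (Finset.abs_sum_le_sum_abs _ _).trans ?_
  have h2 : ∀ t : X → Fin K, |∑ w : X → Fin K → Fin D,
      (∏ e ∈ S, ((D : ℝ) / K * z (w e))) * H t w - ∑ w : X → Fin K → Fin D, H t w| ≤ N * η := by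
    intro t
    rw [← Finset.sum_sub_distrib]
    refine (Finset.abs_sum_le_sum_abs _ _).trans (le_trans ?_ habs)
    refine sum_le_sum fun w _ => ?_
    have e1 : (∏ e ∈ S, ((D : ℝ) / K * z (w e))) * H t w - H t w = (R w - 1) * H t w := by
      rw [hRdef]
      ring
    rw [e1, abs_mul, abs_of_nonneg (h0 t w)]
    exact mul_le_of_le_one_right (abs_nonneg _) (h1 t w)
  refine (sum_le_sum fun t _ => h2 t).trans (le_of_eq ?_)
  rw [sum_const, card_univ, nsmul_eq_mul, hN]
  ring

end Pool.Agent.Q226.FL2
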